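import Mathlib
import Pool.Agent.N662.FP.Stm3

set_option autoImplicit false

/-!
# Project FL part 3, leaf OUT1 (helper195): covering of the outer event
-/

open MeasureTheory ProbabilityTheory Filter Set
open scoped ENNReal Pointwise Topology

namespace Pool.Agent.N195.FN

open Pool.Agent.N662.FP

theorem em_sub (a b : ℤ × ℤ) : em (a - b) = em a - em b :=
  Prod.ext (by simp [Pool.Agent.N662.FP.em]) (by simp [Pool.Agent.N662.FP.em])

theorem em_zero : em 0 = 0 := Prod.ext (by simp [Pool.Agent.N662.FP.em]) (by simp [Pool.Agent.N662.FP.em])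

theorem box_mem (c t : ℝ) (hc : 0 < c) (z : ℤ) (h : c * |(z : ℝ)| ≤ 2 * t) :
    z ∈ Finset.Icc (-(⌊2 * t / c⌋₊ : ℤ)) (⌊2 * t / c⌋₊ : ℤ) := by
  have h1 : |(z : ℝ)| ≤ 2 * t / c := by rw [le_div_iff₀ hc]; linarith
  have h2 : (z.natAbs : ℝ) ≤ 2 * t / c := by
    rw [Nat.cast_natAbs]; push_cast; exact h1
  have h3 : z.natAbs ≤ ⌊2 * t / c⌋₊ := Nat.le_floor h2
  rw [Finset.mem_Icc]
  omega

theorem t_OUT1 (h1 : S_NORM) (h2 : S_GE) : S_OUT1 := by
  classical
  intro μ hμ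
  obtain ⟨c, C0, hc, hC0, hcomp⟩ := h1 μ hμ
  refine ⟨C0 + 1, (4 / c + 1) ^ 2, by linarith, by positivity, fun κ t hκ ht hCt => ?_⟩
  have ht0 : 0 < t := by linarith
  obtain ⟨N, hN⟩ : ∃ N : ℕ, N = ⌊2 * t / c⌋₊ := ⟨_, rfl⟩
  refine ⟨(Finset.Icc (-(N : ℤ)) N ×ˢ Finset.Icc (-(N : ℤ)) N).filter
    (fun v => μ (em v) ≤ 2 * t), ?_, fun v hv => (Finset.mem_filter.1 hv).2, ?_⟩
  · have h3 : (N : ℝ) ≤ 2 * t / c := by
      rw [hN]; exact Nat.floor_le (by positivity)
    have h4 : ((Finset.Icc (-(N : ℤ)) N ×ˢ Finset.Icc (-(N : ℤ)) N).card : ℝ) =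
        (2 * N + 1) ^ 2 := by
      rw [Finset.card_product, Int.card_Icc]
      have h5 : ((N : ℤ) + 1 - -(N : ℤ)).toNat = 2 * N + 1 := by omega
      rw [h5]; push_cast; ring
    have h6 : (2 * N + 1 : ℝ) ≤ (4 / c + 1) * t := by
      have e : (4 / c + 1) * t = 2 * (2 * t / c) + t := by ring
      rw [e]; linarith
    calc ((((Finset.Icc (-(N : ℤ)) N ×ˢ Finset.Icc (-(N : ℤ)) N).filter
        (fun v => μ (em v) ≤ 2 * t)).card : ℕ) : ℝ)
        ≤ ((Finset.Icc (-(N : ℤ)) N ×ˢ Finset.Icc (-(N : ℤ)) N).card : ℝ) := by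
          exact_mod_cast Finset.card_filter_le _ _
      _ = (2 * N + 1) ^ 2 := h4
      _ ≤ ((4 / c + 1) * t) ^ 2 := pow_le_pow_left₀ (by positivity) h6 2
      _ = (4 / c + 1) ^ 2 * t ^ 2 := by ring
  · intro w hw hout
    have hb : (1 + t ^ (-κ)) * t = t + t ^ (1 - κ) := by
      have h3 : t ^ (1 - κ) = t ^ (-κ) * t := by
        rw [show (1 - κ : ℝ) = -κ + 1 by ring, Real.rpow_add_one ht0.ne']
      rw [h3]; ring
    have hp : 0 < t ^ (1 - κ) := Real.rpow_pos_of_pos ht0 _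
    have hp1 : t ^ (1 - κ) ≤ t := by
      calc t ^ (1 - κ) ≤ t ^ (1 : ℝ) := Real.rpow_le_rpow_of_exponent_le ht (by linarith)
        _ = t := Real.rpow_one t
    rw [Set.not_subset] at hout
    obtain ⟨x, ⟨v, hv1, hv2, hv3⟩, hx⟩ := hout
    rw [hb] at hx
    generalize t ^ (1 - κ) = r at hp hp1 hx ⊢
    have hb0 : 0 < t + r := by linarith
    have hμx : t + r < μ x := by
      by_contra hcon
      push Not at hcon
      apply hx
      refine ⟨(t + r)⁻¹ • x, ?_, ?_⟩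
      · show μ ((t + r)⁻¹ • x) ≤ 1
        rw [map_smul_eq_mul, Real.norm_of_nonneg (inv_nonneg.2 hb0.le), inv_mul_le_iff₀ hb0,
          mul_one]
        exact hcon
      · show (t + r) • ((t + r)⁻¹ • x) = x
        rw [smul_smul, mul_inv_cancel₀ hb0.ne', one_smul]
    have hv4 : μ (x - em v) ≤ C0 * (1 / 2) :=
      (hcomp _).2.trans (mul_le_mul_of_nonneg_left (max_le hv2 hv3) hC0.le)
    have hv5 : μ x ≤ μ (x - em v) + μ (em v) := by
      have h3 := map_add_le_add μ (x - em v) (em v)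
      rwa [sub_add_cancel] at h3
    have hv6 : t + r - C0 ≤ μ (em v) := by linarith
    -- a path
    obtain ⟨hne, hbd, -, -⟩ := h2 w hw 0 v
    have hv7 : sInf (PS w 0 v) < t + 1 := by
      have h3 : sInf (PS w 0 v) ≤ t := hv1
      linarith
    obtain ⟨s, hs, hst⟩ := exists_lt_of_csInf_lt hne hv7
    obtain ⟨n, p, hp0, hpn, hstep, hsum⟩ := hs
    have hex : ∃ i, t + r - C0 ≤ μ (em (p i)) := ⟨n, by rw [hpn]; exact hv6⟩
    obtain ⟨i, hi1, hin, hi2⟩ : ∃ i, t + r - C0 ≤ μ (em (p i)) ∧ i ≤ n ∧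
        ∀ j < i, μ (em (p j)) < t + r - C0 :=
      ⟨Nat.find hex, Nat.find_spec hex, Nat.find_min' hex (by rw [hpn]; exact hv6),
        fun j hj => not_le.1 (Nat.find_min hex hj)⟩
    have hi0 : i ≠ 0 := by
      intro h0
      rw [h0, hp0, em_zero, map_zero] at hi1
      linarith
    obtain ⟨j, rfl⟩ := Nat.exists_eq_succ_of_ne_zero hi0
    have hj1 : μ (em (p j)) < t + r - C0 := hi2 j (Nat.lt_succ_self j)
    have hj2 : μ (em (p (j + 1))) ≤ μ (em (p j)) + C0 := by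
      have e1 : μ (em (p (j + 1))) ≤ μ (em (p (j + 1) - p j)) + μ (em (p j)) := by
        rw [em_sub]
        have h3 := map_add_le_add μ (em (p (j + 1)) - em (p j)) (em (p j))
        rwa [sub_add_cancel] at h3
      have e2 : μ (em (p (j + 1) - p j)) ≤ C0 := by
        refine (hcomp _).2.trans ?_
        have e3 : max |(em (p (j + 1) - p j)).1| |(em (p (j + 1) - p j)).2| ≤ 1 := by
          have h7 := hstep j (by omega)
          have h8 : |(p (j + 1)).1 - (p j).1| ≤ 1 := by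
            have := abs_nonneg ((p (j + 1)).2 - (p j).2); omega
          have h9 : |(p (j + 1)).2 - (p j).2| ≤ 1 := by
            have := abs_nonneg ((p (j + 1)).1 - (p j).1); omega
          refine max_le ?_ ?_
          · show |(((p (j + 1) - p j).1 : ℤ) : ℝ)| ≤ 1
            rw [Prod.fst_sub]
            exact_mod_cast h8
          · show |(((p (j + 1) - p j).2 : ℤ) : ℝ)| ≤ 1
            rw [Prod.snd_sub]
            exact_mod_cast h9
        calc C0 * max |(em (p (j + 1) - p j)).1| |(em (p (j + 1) - p j)).2| ≤ C0 * 1 :=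
              mul_le_mul_of_nonneg_left e3 hC0.le
          _ = C0 := mul_one C0
      linarith
    have hj3 : μ (em (p (j + 1))) ≤ 2 * t := by linarith
    have hj4 : D w 0 (p (j + 1)) ≤ ∑ i ∈ Finset.range (j + 1), w s(p i, p (i + 1)) :=
      csInf_le (h2 w hw 0 (p (j + 1))).2.1
        ⟨j + 1, p, hp0, rfl, fun k hk => hstep k (lt_of_lt_of_le hk hin), rfl⟩
    have hj5 : ∑ i ∈ Finset.range (j + 1), w s(p i, p (i + 1)) ≤
        ∑ i ∈ Finset.range n, w s(p i, p (i + 1)) :=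
      Finset.sum_le_sum_of_subset_of_nonneg (Finset.range_mono hin) fun _ _ _ => hw _
    refine ⟨p (j + 1), ?_, ?_⟩
    · rw [Finset.mem_filter, Finset.mem_product]
      have h3 := (hcomp (em (p (j + 1)))).1
      have h4 : c * |((p (j + 1)).1 : ℝ)| ≤ c * max |(em (p (j + 1))).1| |(em (p (j + 1))).2| :=
        mul_le_mul_of_nonneg_left (le_max_left _ _) hc.le
      have h5 : c * |((p (j + 1)).2 : ℝ)| ≤ c * max |(em (p (j + 1))).1| |(em (p (j + 1))).2| :=
        mul_le_mul_of_nonneg_left (le_max_right _ _) hc.le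
      rw [hN]
      exact ⟨⟨box_mem c t hc _ (by linarith), box_mem c t hc _ (by linarith)⟩, hj3⟩
    · have hi3 : t + r - C0 ≤ μ (em (p (j + 1))) := hi1
      linarith

end Pool.Agent.N195.FN
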